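import Mathlib

/-!
# Arithmetic of the host rows (project UB of helper74)
-/

set_option autoImplicit false

namespace Pool.Agent.Helper16.UB

section ring

variable {R : Type} [CommRing R]

/-- `i = k + c * m` with `c = 0, 1, 2`. -/
def U (m i k : R) : Prop := ∃ c : ℕ, c ≤ 2 ∧ i = k + c * m

/-- `m` has additive order at least `6`. -/
def Z6 (m : R) : Prop := ∀ c : ℤ, (c : R) * m = 0 → -6 < c → c < 6 → c = 0

/-- Parity. -/
def Par (m : R) : Prop := (∀ x : R, m ∣ x → 2 * m ∣ x ∨ 2 * m ∣ x - m) ∧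
  ∀ x : R, 2 * m ∣ x → ¬ 2 * m ∣ x - m

/-! ### Above: the lower row has step `m`, the upper row has step `2 m` -/

theorem A_west {m i k : R} (h : U m i k) :
    U m (i - m) k ∨ U m i (k - 2 * m) ∨ U m (i - m) (k - 2 * m) := by
  obtain ⟨c, hc, e⟩ := h
  interval_cases c
  · exact Or.inr (Or.inl ⟨2, le_rfl, by rw [e]; push_cast; ring⟩)
  · exact Or.inl ⟨0, by norm_num, by rw [e]; push_cast; ring⟩
  · exact Or.inl ⟨1, by norm_num, by rw [e]; push_cast; ring⟩

theorem A_cross {m i k : R} (hz : Z6 m) : ¬ (U m i (k + 2 * m) ∧ U m (i + m) k) := by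
  rintro ⟨⟨c, hc, e⟩, ⟨c', hc', e'⟩⟩
  have h := hz (3 + c - c') (by push_cast; linear_combination e' - e) (by omega) (by omega)
  omega

theorem A_ul {m : R} (hz : Z6 m) (hp : Par m) {i : R} (hi : m ∣ i) :
    ∃! k, 2 * m ∣ k ∧ U m i k ∧ ¬ U m i (k - 2 * m) := by
  rcases hp.1 i hi with h | h
  · refine ⟨i - 2 * m, ⟨dvd_sub h dvd_rfl, ⟨2, le_rfl, by push_cast; ring⟩, ?_⟩, ?_⟩
    · rintro ⟨c, hc, e⟩
      have h := hz (4 - c) (by push_cast; linear_combination e) (by omega) (by omega)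
      omega
    · rintro k ⟨hk, ⟨c, hc, e⟩, hn⟩
      interval_cases c
      · exact absurd ⟨2, le_rfl, by rw [e]; push_cast; ring⟩ hn
      · exfalso
        have h1 : i - m = k := by rw [e]; push_cast; ring
        exact hp.2 i h (h1 ▸ hk)
      · rw [e]; push_cast; ring
  · refine ⟨i - m, ⟨h, ⟨1, by norm_num, by push_cast; ring⟩, ?_⟩, ?_⟩
    · rintro ⟨c, hc, e⟩
      have h := hz (3 - c) (by push_cast; linear_combination e) (by omega) (by omega)
      omega
    · rintro k ⟨hk, ⟨c, hc, e⟩, hn⟩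
      interval_cases c
      · exfalso
        have h1 : i = k := by rw [e]; push_cast; ring
        exact hp.2 i (h1 ▸ hk) h
      · rw [e]; push_cast; ring
      · exfalso
        have h1 : i = k + 2 * m := by rw [e]; push_cast; ring
        have h2 : 2 * m ∣ i := by rw [h1]; exact dvd_add hk dvd_rfl
        exact hp.2 i h2 h

theorem A_ur {m : R} (hz : Z6 m) (hp : Par m) {i : R} (hi : m ∣ i) :
    ∃! k, 2 * m ∣ k ∧ U m i k ∧ ¬ U m i (k + 2 * m) := by
  rcases hp.1 i hi with h | h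
  · refine ⟨i, ⟨h, ⟨0, by norm_num, by push_cast; ring⟩, ?_⟩, ?_⟩
    · rintro ⟨c, hc, e⟩
      have h := hz (2 + c) (by push_cast; linear_combination - e) (by omega) (by omega)
      omega
    · rintro k ⟨hk, ⟨c, hc, e⟩, hn⟩
      interval_cases c
      · rw [e]; push_cast; ring
      · exfalso
        have h1 : i - m = k := by rw [e]; push_cast; ring
        exact hp.2 i h (h1 ▸ hk)
      · exact absurd ⟨0, by norm_num, by rw [e]; push_cast; ring⟩ hn
  · refine ⟨i - m, ⟨h, ⟨1, by norm_num, by push_cast; ring⟩, ?_⟩, ?_⟩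
    · rintro ⟨c, hc, e⟩
      have h := hz (1 + c) (by push_cast; linear_combination - e) (by omega) (by omega)
      omega
    · rintro k ⟨hk, ⟨c, hc, e⟩, hn⟩
      interval_cases c
      · exfalso
        have h1 : i = k := by rw [e]; push_cast; ring
        exact hp.2 i (h1 ▸ hk) h
      · rw [e]; push_cast; ring
      · exfalso
        have h1 : i = k + 2 * m := by rw [e]; push_cast; ring
        have h2 : 2 * m ∣ i := by rw [h1]; exact dvd_add hk dvd_rfl
        exact hp.2 i h2 h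

theorem A_dl {m : R} (hz : Z6 m) {k : R} (hk : 2 * m ∣ k) :
    ∃! i, m ∣ i ∧ U m i k ∧ ¬ U m (i - m) k := by
  have hk' : m ∣ k := (dvd_mul_left m 2).trans hk
  refine ⟨k, ⟨hk', ⟨0, by norm_num, by push_cast; ring⟩, ?_⟩, ?_⟩
  · rintro ⟨c, hc, e⟩
    have h := hz (1 + c) (by push_cast; linear_combination - e) (by omega) (by omega)
    omega
  · rintro i ⟨hi, ⟨c, hc, e⟩, hn⟩
    interval_cases c
    · rw [e]; push_cast; ring
    · exact absurd ⟨0, by norm_num, by rw [e]; push_cast; ring⟩ hn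
    · exact absurd ⟨1, by norm_num, by rw [e]; push_cast; ring⟩ hn

theorem A_dr {m : R} (hz : Z6 m) {k : R} (hk : 2 * m ∣ k) :
    ∃! i, m ∣ i ∧ U m i k ∧ ¬ U m (i + m) k := by
  have hk' : m ∣ k := (dvd_mul_left m 2).trans hk
  refine ⟨k + 2 * m, ⟨dvd_add hk' (dvd_mul_left m 2), ⟨2, le_rfl, by push_cast; ring⟩, ?_⟩, ?_⟩
  · rintro ⟨c, hc, e⟩
    have h := hz (3 - c) (by push_cast; linear_combination e) (by omega) (by omega)
    omega
  · rintro i ⟨hi, ⟨c, hc, e⟩, hn⟩
    interval_cases c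
    · exact absurd ⟨1, by norm_num, by rw [e]; push_cast; ring⟩ hn
    · exact absurd ⟨2, by norm_num, by rw [e]; push_cast; ring⟩ hn
    · rw [e]; push_cast; ring

/-! ### Below: the lower row has step `2 m`, the upper row has step `m` -/

theorem B_west {m i k : R} (h : U m i k) :
    U m (i - 2 * m) k ∨ U m i (k - m) ∨ U m (i - 2 * m) (k - m) := by
  obtain ⟨c, hc, e⟩ := h
  interval_cases c
  · exact Or.inr (Or.inl ⟨1, by norm_num, by rw [e]; push_cast; ring⟩)
  · exact Or.inr (Or.inl ⟨2, by norm_num, by rw [e]; push_cast; ring⟩)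
  · exact Or.inl ⟨0, by norm_num, by rw [e]; push_cast; ring⟩

theorem B_cross {m i k : R} (hz : Z6 m) : ¬ (U m i (k + m) ∧ U m (i + 2 * m) k) := by
  rintro ⟨⟨c, hc, e⟩, ⟨c', hc', e'⟩⟩
  have h := hz (3 + c - c') (by push_cast; linear_combination e' - e) (by omega) (by omega)
  omega

theorem B_ul {m : R} (hz : Z6 m) {i : R} (hi : 2 * m ∣ i) :
    ∃! k, m ∣ k ∧ U m i k ∧ ¬ U m i (k - m) := by
  have hi' : m ∣ i := (dvd_mul_left m 2).trans hi
  refine ⟨i - 2 * m, ⟨dvd_sub hi' (dvd_mul_left m 2), ⟨2, le_rfl, by push_cast; ring⟩, ?_⟩, ?_⟩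
  · rintro ⟨c, hc, e⟩
    have h := hz (3 - c) (by push_cast; linear_combination e) (by omega) (by omega)
    omega
  · rintro k ⟨hk, ⟨c, hc, e⟩, hn⟩
    interval_cases c
    · exact absurd ⟨1, by norm_num, by rw [e]; push_cast; ring⟩ hn
    · exact absurd ⟨2, by norm_num, by rw [e]; push_cast; ring⟩ hn
    · rw [e]; push_cast; ring

theorem B_ur {m : R} (hz : Z6 m) {i : R} (hi : 2 * m ∣ i) :
    ∃! k, m ∣ k ∧ U m i k ∧ ¬ U m i (k + m) := by
  have hi' : m ∣ i := (dvd_mul_left m 2).trans hi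
  refine ⟨i, ⟨hi', ⟨0, by norm_num, by push_cast; ring⟩, ?_⟩, ?_⟩
  · rintro ⟨c, hc, e⟩
    have h := hz (1 + c) (by push_cast; linear_combination - e) (by omega) (by omega)
    omega
  · rintro k ⟨hk, ⟨c, hc, e⟩, hn⟩
    interval_cases c
    · rw [e]; push_cast; ring
    · exact absurd ⟨0, by norm_num, by rw [e]; push_cast; ring⟩ hn
    · exact absurd ⟨1, by norm_num, by rw [e]; push_cast; ring⟩ hn

theorem B_dl {m : R} (hz : Z6 m) (hp : Par m) {k : R} (hk : m ∣ k) :
    ∃! i, 2 * m ∣ i ∧ U m i k ∧ ¬ U m (i - 2 * m) k := by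
  rcases hp.1 k hk with h | h
  · refine ⟨k, ⟨h, ⟨0, by norm_num, by push_cast; ring⟩, ?_⟩, ?_⟩
    · rintro ⟨c, hc, e⟩
      have h := hz (2 + c) (by push_cast; linear_combination - e) (by omega) (by omega)
      omega
    · rintro i ⟨hi, ⟨c, hc, e⟩, hn⟩
      interval_cases c
      · rw [e]; push_cast; ring
      · exfalso
        have h1 : k = i - m := by rw [e]; push_cast; ring
        exact hp.2 i hi (h1 ▸ h)
      · exact absurd ⟨0, by norm_num, by rw [e]; push_cast; ring⟩ hn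
  · have hkm : 2 * m ∣ k + m := by
      have h1 : k + m = (k - m) + 2 * m := by ring
      rw [h1]; exact dvd_add h dvd_rfl
    refine ⟨k + m, ⟨hkm, ⟨1, by norm_num, by push_cast; ring⟩, ?_⟩, ?_⟩
    · rintro ⟨c, hc, e⟩
      have h := hz (1 + c) (by push_cast; linear_combination - e) (by omega) (by omega)
      omega
    · rintro i ⟨hi, ⟨c, hc, e⟩, hn⟩
      interval_cases c
      · exfalso
        have h1 : i = k := by rw [e]; push_cast; ring
        exact hp.2 k (h1 ▸ hi) h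
      · rw [e]; push_cast; ring
      · exfalso
        have h1 : k = i - 2 * m := by rw [e]; push_cast; ring
        have h2 : 2 * m ∣ k := by rw [h1]; exact dvd_sub hi dvd_rfl
        exact hp.2 k h2 h

theorem B_dr {m : R} (hz : Z6 m) (hp : Par m) {k : R} (hk : m ∣ k) :
    ∃! i, 2 * m ∣ i ∧ U m i k ∧ ¬ U m (i + 2 * m) k := by
  rcases hp.1 k hk with h | h
  · refine ⟨k + 2 * m, ⟨dvd_add h dvd_rfl, ⟨2, by norm_num, by push_cast; ring⟩, ?_⟩, ?_⟩
    · rintro ⟨c, hc, e⟩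
      have h := hz (4 - c) (by push_cast; linear_combination e) (by omega) (by omega)
      omega
    · rintro i ⟨hi, ⟨c, hc, e⟩, hn⟩
      interval_cases c
      · exact absurd ⟨2, by norm_num, by rw [e]; push_cast; ring⟩ hn
      · exfalso
        have h1 : k = i - m := by rw [e]; push_cast; ring
        exact hp.2 i hi (h1 ▸ h)
      · rw [e]; push_cast; ring
  · have hkm : 2 * m ∣ k + m := by
      have h1 : k + m = (k - m) + 2 * m := by ring
      rw [h1]; exact dvd_add h dvd_rfl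
    refine ⟨k + m, ⟨hkm, ⟨1, by norm_num, by push_cast; ring⟩, ?_⟩, ?_⟩
    · rintro ⟨c, hc, e⟩
      have h := hz (3 - c) (by push_cast; linear_combination e) (by omega) (by omega)
      omega
    · rintro i ⟨hi, ⟨c, hc, e⟩, hn⟩
      interval_cases c
      · exfalso
        have h1 : i = k := by rw [e]; push_cast; ring
        exact hp.2 k (h1 ▸ hi) h
      · rw [e]; push_cast; ring
      · exfalso
        have h1 : k = i - 2 * m := by rw [e]; push_cast; ring
        have h2 : 2 * m ∣ k := by rw [h1]; exact dvd_sub hi dvd_rfl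
        exact hp.2 k h2 h

end ring

/-! ### `ZMod (3 * 2 ^ K)` -/

theorem cast_zero {K l : ℕ} (hl : l ≤ K) (c : ℤ)
    (h : (c : ZMod (3 * 2 ^ K)) * 2 ^ l = 0) : (3 * 2 ^ (K - l) : ℤ) ∣ c := by
  have h1 : ((c * 2 ^ l : ℤ) : ZMod (3 * 2 ^ K)) = 0 := by push_cast; exact h
  rw [ZMod.intCast_zmod_eq_zero_iff_dvd] at h1
  have h2 : ((3 * 2 ^ K : ℕ) : ℤ) = (3 * 2 ^ (K - l)) * 2 ^ l := by
    push_cast
    rw [mul_assoc, ← pow_add, Nat.sub_add_cancel hl]
  rw [h2] at h1
  exact Int.dvd_of_mul_dvd_mul_right (by positivity) h1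

theorem z3 {K l : ℕ} (hl : l ≤ K) (c : ℤ)
    (h : (c : ZMod (3 * 2 ^ K)) * 2 ^ l = 0) (h1 : -3 < c) (h2 : c < 3) : c = 0 := by
  have h3 := cast_zero hl c h
  by_contra hc
  have h4 : (3 : ℤ) ∣ c := (dvd_mul_right 3 _).trans h3
  omega

theorem z6 {K l : ℕ} (hl : l < K) : Z6 ((2 : ZMod (3 * 2 ^ K)) ^ l) := by
  intro c h h1 h2
  have h3 := cast_zero hl.le c h
  have h4 : (6 : ℤ) ∣ 3 * 2 ^ (K - l) := by
    obtain ⟨j, hj⟩ : ∃ j, K - l = j + 1 := ⟨K - l - 1, by omega⟩
    rw [hj, pow_succ]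
    exact ⟨2 ^ j, by ring⟩
  have h5 := h4.trans h3
  omega

theorem par {K l : ℕ} (hl : l < K) : Par ((2 : ZMod (3 * 2 ^ K)) ^ l) := by
  have key : ¬ 2 * (2 : ZMod (3 * 2 ^ K)) ^ l ∣ 2 ^ l := by
    rintro ⟨y, hy⟩
    obtain ⟨z, rfl⟩ := ZMod.intCast_surjective y
    have h1 : ((1 - 2 * z : ℤ) : ZMod (3 * 2 ^ K)) * 2 ^ l = 0 := by
      push_cast; linear_combination hy
    have h2 := cast_zero hl.le _ h1
    have h4 : (2 : ℤ) ∣ 3 * 2 ^ (K - l) := by
      obtain ⟨j, hj⟩ : ∃ j, K - l = j + 1 := ⟨K - l - 1, by omega⟩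
      rw [hj, pow_succ]
      exact ⟨3 * 2 ^ j, by ring⟩
    have h5 := h4.trans h2
    omega
  constructor
  · rintro x ⟨y, rfl⟩
    obtain ⟨z, rfl⟩ := ZMod.intCast_surjective y
    rcases Int.even_or_odd' z with ⟨w, rfl | rfl⟩
    · left; exact ⟨w, by push_cast; ring⟩
    · right; exact ⟨w, by push_cast; ring⟩
  · intro x h1 h2
    apply key
    have h3 : (2 : ZMod (3 * 2 ^ K)) ^ l = x - (x - 2 ^ l) := by ring
    rw [h3]
    have h4 := dvd_sub h1 h2
    rw [← h3] at h4 ⊢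
    exact h4

end Pool.Agent.Helper16.UB
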