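import Pool.Agent.Helper74.UB.Goals3
import Pool.Agent.Helper16.UB.Ring

/-!
# HOSTAX: the axioms for the concrete host layout (project UB of helper74)
-/

set_option autoImplicit false

namespace Pool.Agent.Helper16.UB

open Pool.Agent.Helper74.UB
open scoped Classical

/-- The relation `up` between the rows `r` and `r + 1` in terms of positions. -/
def W (K h : ℕ) (r : ℤ) (i k : ZMod (3 * 2 ^ K)) : Prop :=
  if r < 0 ∨ (h : ℤ) ≤ r then U ((2 : ZMod (3 * 2 ^ K)) ^ (min (lev h r) (lev h (r + 1)))) i k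
  else if Even r then k = i else k = i ∨ k = i + 1

/-- The step of a row. -/
def st (K h : ℕ) (r : ℤ) : ZMod (3 * 2 ^ K) := 2 ^ lev h r

theorem hostUp_iff {K h : ℕ} (p q : HV K h) :
    hostUp K h p q ↔ q.1.1 = p.1.1 + 1 ∧ W K h p.1.1 p.1.2 q.1.2 := by
  unfold hostUp W U
  constructor
  · rintro ⟨h1, h2⟩
    rw [h1] at h2
    exact ⟨h1, h2⟩
  · rintro ⟨h1, h2⟩
    refine ⟨h1, ?_⟩
    rw [h1]
    exact h2

theorem lev_le {K h : ℕ} {r : ℤ} (h1 : -(K : ℤ) ≤ r) (h2 : r ≤ h + K) : lev h r ≤ K := by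
  unfold lev
  omega

/-- All properties of one row. -/
structure RowOk (K h : ℕ) (r : ℤ) : Prop where
  west : ∀ i k, W K h r i k → W K h r (i - st K h r) k ∨ W K h r i (k - st K h (r + 1)) ∨
    W K h r (i - st K h r) (k - st K h (r + 1))
  cross : ∀ i k, ¬ (W K h r i (k + st K h (r + 1)) ∧ W K h r (i + st K h r) k)
  ul : ∀ i, st K h r ∣ i → ∃! k, st K h (r + 1) ∣ k ∧ W K h r i k ∧
    ¬ W K h r i (k - st K h (r + 1))
  ur : ∀ i, st K h r ∣ i → ∃! k, st K h (r + 1) ∣ k ∧ W K h r i k ∧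
    ¬ W K h r i (k + st K h (r + 1))
  dl : ∀ k, st K h (r + 1) ∣ k → ∃! i, st K h r ∣ i ∧ W K h r i k ∧
    ¬ W K h r (i - st K h r) k
  dr : ∀ k, st K h (r + 1) ∣ k → ∃! i, st K h r ∣ i ∧ W K h r i k ∧
    ¬ W K h r (i + st K h r) k

theorem row_above {K h : ℕ} {r : ℤ} (h1 : (h : ℤ) ≤ r) (h2 : r < h + K) : RowOk K h r := by
  obtain ⟨l, hl⟩ : ∃ l, lev h r = l := ⟨_, rfl⟩
  have hl2 : lev h (r + 1) = l + 1 := by
    unfold lev at hl ⊢
    omega
  have hlK : l < K := by
    unfold lev at hl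
    omega
  have hz := z6 hlK
  have hp := par hlK
  have e1 : st K h r = 2 ^ l := by rw [st, hl]
  have e2 : st K h (r + 1) = 2 * 2 ^ l := by rw [st, hl2, pow_succ']
  have e3 : ∀ i k, W K h r i k ↔ U ((2 : ZMod (3 * 2 ^ K)) ^ l) i k := by
    intro i k
    unfold W
    rw [if_pos (Or.inr h1), hl, hl2, min_eq_left (Nat.le_succ l)]
  constructor
  · intro i k
    rw [e1, e2, e3, e3, e3, e3]
    exact A_west
  · intro i k
    rw [e1, e2, e3, e3]
    exact A_cross hz
  · intro i hi
    rw [e1] at hi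
    simp only [e2, e3]
    exact A_ul hz hp hi
  · intro i hi
    rw [e1] at hi
    simp only [e2, e3]
    exact A_ur hz hp hi
  · intro k hk
    rw [e2] at hk
    simp only [e1, e3]
    exact A_dl hz hk
  · intro k hk
    rw [e2] at hk
    simp only [e1, e3]
    exact A_dr hz hk

theorem row_below {K h : ℕ} {r : ℤ} (h1 : -(K : ℤ) ≤ r) (h2 : r < 0) : RowOk K h r := by
  obtain ⟨l, hl⟩ : ∃ l, lev h (r + 1) = l := ⟨_, rfl⟩
  have hl2 : lev h r = l + 1 := by
    unfold lev at hl ⊢
    omega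
  have hlK : l < K := by
    unfold lev at hl
    omega
  have hz := z6 hlK
  have hp := par hlK
  have e1 : st K h (r + 1) = 2 ^ l := by rw [st, hl]
  have e2 : st K h r = 2 * 2 ^ l := by rw [st, hl2, pow_succ']
  have e3 : ∀ i k, W K h r i k ↔ U ((2 : ZMod (3 * 2 ^ K)) ^ l) i k := by
    intro i k
    unfold W
    rw [if_pos (Or.inl h2), hl, hl2, min_eq_right (Nat.le_succ l)]
  constructor
  · intro i k
    rw [e1, e2, e3, e3, e3, e3]
    exact B_west
  · intro i k
    rw [e1, e2, e3, e3]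
    exact B_cross hz
  · intro i hi
    rw [e2] at hi
    simp only [e1, e3]
    exact B_ul hz hi
  · intro i hi
    rw [e2] at hi
    simp only [e1, e3]
    exact B_ur hz hi
  · intro k hk
    rw [e1] at hk
    simp only [e2, e3]
    exact B_dl hz hp hk
  · intro k hk
    rw [e1] at hk
    simp only [e2, e3]
    exact B_dr hz hp hk

theorem row_even {K h : ℕ} (hK : 1 ≤ K) {r : ℤ} (h1 : 0 ≤ r) (h2 : r < h) (he : Even r) :
    RowOk K h r := by
  have e1 : st K h r = 1 := by
    have : lev h r = 0 := by unfold lev; omega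
    rw [st, this, pow_zero]
  have e2 : st K h (r + 1) = 1 := by
    have : lev h (r + 1) = 0 := by unfold lev; omega
    rw [st, this, pow_zero]
  have e3 : ∀ i k, W K h r i k ↔ k = i := by
    intro i k
    unfold W
    rw [if_neg (by omega), if_pos he]
  have hz : Z6 (1 : ZMod (3 * 2 ^ K)) := by
    have := z6 (K := K) (l := 0) (by omega)
    simpa using this
  constructor
  · intro i k
    rw [e1, e2, e3, e3, e3, e3]
    rintro rfl
    exact Or.inr (Or.inr rfl)
  · intro i k
    rw [e1, e2, e3, e3]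
    rintro ⟨h3, h4⟩
    have := hz 2 (by push_cast; linear_combination h3 - h4) (by omega) (by omega)
    omega
  · intro i _
    simp only [e2, e3]
    refine ⟨i, ⟨one_dvd _, rfl, ?_⟩, ?_⟩
    · intro h3
      have := hz 1 (by push_cast; linear_combination - h3) (by omega) (by omega)
      omega
    · rintro k ⟨-, h3, -⟩
      exact h3
  · intro i _
    simp only [e2, e3]
    refine ⟨i, ⟨one_dvd _, rfl, ?_⟩, ?_⟩
    · intro h3
      have := hz 1 (by push_cast; linear_combination h3) (by omega) (by omega)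
      omega
    · rintro k ⟨-, h3, -⟩
      exact h3
  · intro k _
    simp only [e1, e3]
    refine ⟨k, ⟨one_dvd _, rfl, ?_⟩, ?_⟩
    · intro h3
      have := hz 1 (by push_cast; linear_combination h3) (by omega) (by omega)
      omega
    · rintro i ⟨-, h3, -⟩
      exact h3.symm
  · intro k _
    simp only [e1, e3]
    refine ⟨k, ⟨one_dvd _, rfl, ?_⟩, ?_⟩
    · intro h3
      have := hz 1 (by push_cast; linear_combination - h3) (by omega) (by omega)
      omega
    · rintro i ⟨-, h3, -⟩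
      exact h3.symm

theorem row_odd {K h : ℕ} (hK : 1 ≤ K) {r : ℤ} (h1 : 0 ≤ r) (h2 : r < h) (he : ¬ Even r) :
    RowOk K h r := by
  have e1 : st K h r = 1 := by
    have : lev h r = 0 := by unfold lev; omega
    rw [st, this, pow_zero]
  have e2 : st K h (r + 1) = 1 := by
    have : lev h (r + 1) = 0 := by unfold lev; omega
    rw [st, this, pow_zero]
  have e3 : ∀ i k, W K h r i k ↔ k = i ∨ k = i + 1 := by
    intro i k
    unfold W
    rw [if_neg (by omega), if_neg he]
  have hz : Z6 (1 : ZMod (3 * 2 ^ K)) := by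
    have := z6 (K := K) (l := 0) (by omega)
    simpa using this
  constructor
  · intro i k
    rw [e1, e2, e3, e3, e3, e3]
    rintro (rfl | rfl)
    · exact Or.inl (Or.inr (by ring))
    · exact Or.inr (Or.inl (Or.inl (by ring)))
  · intro i k
    rw [e1, e2, e3, e3]
    rintro ⟨h3 | h3, h4 | h4⟩
    · have := hz 2 (by push_cast; linear_combination h3 - h4) (by omega) (by omega)
      omega
    · have := hz 3 (by push_cast; linear_combination h3 - h4) (by omega) (by omega)
      omega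
    · have := hz 1 (by push_cast; linear_combination h3 - h4) (by omega) (by omega)
      omega
    · have := hz 2 (by push_cast; linear_combination h3 - h4) (by omega) (by omega)
      omega
  · intro i _
    simp only [e2, e3]
    refine ⟨i, ⟨one_dvd _, Or.inl rfl, ?_⟩, ?_⟩
    · rintro (h3 | h3)
      · have := hz 1 (by push_cast; linear_combination - h3) (by omega) (by omega)
        omega
      · have := hz 2 (by push_cast; linear_combination - h3) (by omega) (by omega)
        omega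
    · rintro k ⟨-, h3 | h3, h4⟩
      · exact h3
      · exact absurd (Or.inl (by rw [h3]; ring)) h4
  · intro i _
    simp only [e2, e3]
    refine ⟨i + 1, ⟨one_dvd _, Or.inr rfl, ?_⟩, ?_⟩
    · rintro (h3 | h3)
      · have := hz 2 (by push_cast; linear_combination h3) (by omega) (by omega)
        omega
      · have := hz 1 (by push_cast; linear_combination h3) (by omega) (by omega)
        omega
    · rintro k ⟨-, h3 | h3, h4⟩
      · exact absurd (Or.inr (by rw [h3])) h4
      · exact h3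
  · intro k _
    simp only [e1, e3]
    refine ⟨k - 1, ⟨one_dvd _, Or.inr (by ring), ?_⟩, ?_⟩
    · rintro (h3 | h3)
      · have := hz 2 (by push_cast; linear_combination h3) (by omega) (by omega)
        omega
      · have := hz 1 (by push_cast; linear_combination h3) (by omega) (by omega)
        omega
    · rintro i ⟨-, h3 | h3, h4⟩
      · exact absurd (Or.inr (by rw [h3]; ring)) h4
      · rw [h3]; ring
  · intro k _
    simp only [e1, e3]
    refine ⟨k, ⟨one_dvd _, Or.inl rfl, ?_⟩, ?_⟩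
    · rintro (h3 | h3)
      · have := hz 1 (by push_cast; linear_combination - h3) (by omega) (by omega)
        omega
      · have := hz 2 (by push_cast; linear_combination - h3) (by omega) (by omega)
        omega
    · rintro i ⟨-, h3 | h3, h4⟩
      · exact h3.symm
      · exact absurd (Or.inl (by rw [h3])) h4

theorem rowOk {K h : ℕ} (hK : 1 ≤ K) {r : ℤ} (h1 : -(K : ℤ) ≤ r) (h2 : r < h + K) :
    RowOk K h r := by
  rcases lt_or_ge r 0 with h3 | h3
  · exact row_below h1 h3
  rcases le_or_gt (h : ℤ) r with h4 | h4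
  · exact row_above h4 h2
  by_cases he : Even r
  · exact row_even hK h3 h4 he
  · exact row_odd hK h3 h4 he

theorem hv_ext {K h : ℕ} {p q : HV K h} (h1 : p.1.1 = q.1.1) (h2 : p.1.2 = q.1.2) : p = q :=
  Subtype.ext (Prod.ext h1 h2)

theorem hostax : StmtHostAx := by
  intro K h hK ho
  have hpos : 0 < h := ho.pos
  have E1 : ∀ v : HV K h, ((hostE K h) v).1.1 = v.1.1 := fun v => rfl
  have E2 : ∀ v : HV K h, ((hostE K h) v).1.2 = v.1.2 + st K h v.1.1 := fun v => rfl
  have E3 : ∀ v : HV K h, ((hostE K h).symm v).1.1 = v.1.1 := fun v => rfl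
  have E4 : ∀ v : HV K h, ((hostE K h).symm v).1.2 = v.1.2 - st K h v.1.1 := fun v => rfl
  have iter1 : ∀ (n : ℕ) (v : HV K h), (((hostE K h))^[n] v).1.1 = v.1.1 := by
    intro n
    induction n with
    | zero => intro v; rfl
    | succ n ih => intro v; rw [Function.iterate_succ_apply, ih, E1]
  have iter2 : ∀ (n : ℕ) (v : HV K h), (((hostE K h))^[n] v).1.2 = v.1.2 + n * st K h v.1.1 := by
    intro n
    induction n with
    | zero => intro v; simp
    | succ n ih => intro v; rw [Function.iterate_succ_apply, ih, E1, E2]; push_cast; ring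
  refine
    { lt := ?_, ne := ?_, bnd := ?_, row_e := ?_, cyc := ?_, e1 := ?_, e2 := ?_, up_row := ?_,
      west := ?_, cross := ?_, ul := ?_, ur := ?_, dl := ?_, dr := ?_ }
  · show -(K : ℤ) < h + K
    omega
  · exact ⟨⟨(0, 0), by simp, by simp; omega, dvd_zero _⟩⟩
  · intro v
    exact ⟨v.2.1, v.2.2.1⟩
  · intro v
    rfl
  · intro v w hvw
    have hvw' : v.1.1 = w.1.1 := hvw
    have h1 : st K h v.1.1 ∣ w.1.2 - v.1.2 := by
      have h2 : st K h v.1.1 ∣ v.1.2 := v.2.2.2
      have h3 : st K h v.1.1 ∣ w.1.2 := by rw [hvw']; exact w.2.2.2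
      exact dvd_sub h3 h2
    obtain ⟨y, hy⟩ := h1
    have : NeZero (3 * 2 ^ K) := ⟨by positivity⟩
    obtain ⟨n, rfl⟩ : ∃ n : ℕ, (n : ZMod (3 * 2 ^ K)) = y := ⟨y.val, ZMod.natCast_zmod_val y⟩
    refine ⟨n, hv_ext ?_ ?_⟩
    · exact (iter1 n v).trans hvw'
    · have h5 : (((hostE K h))^[n] v).1.2 = w.1.2 := by
        rw [iter2]; linear_combination - hy
      exact h5
  · intro v hv
    have h1 : ((hostE K h) v).1.2 = v.1.2 := congrArg (fun p : HV K h => p.1.2) hv
    rw [E2] at h1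
    have h2 := z3 (lev_le v.2.1 v.2.2.1) 1 (by push_cast; unfold st at h1; linear_combination h1)
      (by omega) (by omega)
    omega
  · intro v hv
    have h1 : ((hostE K h) ((hostE K h) v)).1.2 = v.1.2 :=
      congrArg (fun p : HV K h => p.1.2) hv
    rw [E2, E2, E1] at h1
    have h2 := z3 (lev_le v.2.1 v.2.2.1) 2 (by push_cast; unfold st at h1; linear_combination h1)
      (by omega) (by omega)
    omega
  · intro v k hvk
    exact hvk.1
  · intro v k hvk
    obtain ⟨h1, h2⟩ := (hostUp_iff v k).1 hvk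
    have hr : RowOk K h v.1.1 := rowOk hK v.2.1 (by have := k.2.2.1; omega)
    rcases hr.west _ _ h2 with h3 | h3 | h3
    · refine Or.inl ((hostUp_iff _ _).2 ⟨h1, ?_⟩)
      exact h3
    · refine Or.inr (Or.inl ((hostUp_iff _ _).2 ⟨h1, ?_⟩))
      have h4 : ((hostE K h).symm k).1.2 = k.1.2 - st K h (v.1.1 + 1) := by rw [E4, h1]
      have h5 : W K h v.1.1 v.1.2 ((hostE K h).symm k).1.2 := by rw [h4]; exact h3
      exact h5
    · refine Or.inr (Or.inr ((hostUp_iff _ _).2 ⟨h1, ?_⟩))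
      have h4 : ((hostE K h).symm k).1.2 = k.1.2 - st K h (v.1.1 + 1) := by rw [E4, h1]
      have h5 : W K h v.1.1 ((hostE K h).symm v).1.2 ((hostE K h).symm k).1.2 := by
        rw [h4]; exact h3
      exact h5
  · rintro v k ⟨ha, hb⟩
    obtain ⟨h1, h2⟩ := (hostUp_iff _ _).1 ha
    obtain ⟨h3, h4⟩ := (hostUp_iff _ _).1 hb
    have h1' : k.1.1 = v.1.1 + 1 := h1
    have hr : RowOk K h v.1.1 := rowOk hK v.2.1 (by have := k.2.2.1; omega)
    have h5 : ((hostE K h) k).1.2 = k.1.2 + st K h (v.1.1 + 1) := by rw [E2, h1']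
    have h6 : W K h v.1.1 v.1.2 (k.1.2 + st K h (v.1.1 + 1)) := by rw [← h5]; exact h2
    exact hr.cross _ _ ⟨h6, h4⟩
  · intro v hv
    have hv' : v.1.1 < h + K := hv
    have hr : RowOk K h v.1.1 := rowOk hK v.2.1 hv'
    obtain ⟨k, ⟨k1, k2, k3⟩, ku⟩ := hr.ul v.1.2 v.2.2.2
    have hb1 : -(K : ℤ) ≤ v.1.1 + 1 := by have := v.2.1; omega
    refine ⟨⟨(v.1.1 + 1, k), hb1, by show v.1.1 + 1 ≤ h + K; omega, k1⟩, ⟨?_, ?_⟩, ?_⟩
    · exact (hostUp_iff _ _).2 ⟨rfl, k2⟩
    · intro h3
      exact k3 ((hostUp_iff _ _).1 h3).2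
    · rintro q ⟨h3, h4⟩
      obtain ⟨h5, h6⟩ := (hostUp_iff _ _).1 h3
      refine hv_ext h5 ?_
      refine ku _ ⟨?_, h6, ?_⟩
      · have := q.2.2.2
        rw [h5] at this
        exact this
      · intro h7
        apply h4
        refine (hostUp_iff _ _).2 ⟨h5, ?_⟩
        have h8 : ((hostE K h).symm q).1.2 = q.1.2 - st K h (v.1.1 + 1) := by rw [E4, h5]
        have h9 : W K h v.1.1 v.1.2 ((hostE K h).symm q).1.2 := by rw [h8]; exact h7
        exact h9
  · intro v hv
    have hv' : v.1.1 < h + K := hv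
    have hr : RowOk K h v.1.1 := rowOk hK v.2.1 hv'
    obtain ⟨k, ⟨k1, k2, k3⟩, ku⟩ := hr.ur v.1.2 v.2.2.2
    have hb1 : -(K : ℤ) ≤ v.1.1 + 1 := by have := v.2.1; omega
    refine ⟨⟨(v.1.1 + 1, k), hb1, by show v.1.1 + 1 ≤ h + K; omega, k1⟩, ⟨?_, ?_⟩, ?_⟩
    · exact (hostUp_iff _ _).2 ⟨rfl, k2⟩
    · intro h3
      exact k3 ((hostUp_iff _ _).1 h3).2
    · rintro q ⟨h3, h4⟩
      obtain ⟨h5, h6⟩ := (hostUp_iff _ _).1 h3
      refine hv_ext h5 ?_
      refine ku _ ⟨?_, h6, ?_⟩
      · have := q.2.2.2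
        rw [h5] at this
        exact this
      · intro h7
        apply h4
        refine (hostUp_iff _ _).2 ⟨h5, ?_⟩
        have h8 : ((hostE K h) q).1.2 = q.1.2 + st K h (v.1.1 + 1) := by rw [E2, h5]
        have h9 : W K h v.1.1 v.1.2 ((hostE K h) q).1.2 := by rw [h8]; exact h7
        exact h9
  · intro q hq
    have hq' : -(K : ℤ) < q.1.1 := hq
    obtain ⟨r, hr0⟩ : ∃ r, q.1.1 = r + 1 := ⟨q.1.1 - 1, by ring⟩
    have hr : RowOk K h r := rowOk hK (by omega) (by have := q.2.2.1; omega)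
    have hq2 : st K h (r + 1) ∣ q.1.2 := by have := q.2.2.2; rw [hr0] at this; exact this
    obtain ⟨i, ⟨i1, i2, i3⟩, iu⟩ := hr.dl q.1.2 hq2
    have hb2 : r ≤ h + K := by have := q.2.2.1; omega
    refine ⟨⟨(r, i), by show -(K : ℤ) ≤ r; omega, hb2, i1⟩, ⟨?_, ?_⟩, ?_⟩
    · exact (hostUp_iff _ _).2 ⟨hr0, i2⟩
    · intro h3
      exact i3 ((hostUp_iff _ _).1 h3).2
    · rintro v ⟨h3, h4⟩
      obtain ⟨h5, h6⟩ := (hostUp_iff _ _).1 h3
      have h5' : v.1.1 = r := by omega
      refine hv_ext h5' ?_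
      rw [h5'] at h6
      refine iu _ ⟨?_, h6, ?_⟩
      · have := v.2.2.2
        rw [h5'] at this
        exact this
      · intro h7
        apply h4
        refine (hostUp_iff _ _).2 ⟨h5, ?_⟩
        have h8 : ((hostE K h).symm v).1.2 = v.1.2 - st K h r := by rw [E4, h5']
        have h9 : W K h ((hostE K h).symm v).1.1 ((hostE K h).symm v).1.2 q.1.2 := by
          rw [h8, E3, h5']; exact h7
        exact h9
  · intro q hq
    have hq' : -(K : ℤ) < q.1.1 := hq
    obtain ⟨r, hr0⟩ : ∃ r, q.1.1 = r + 1 := ⟨q.1.1 - 1, by ring⟩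
    have hr : RowOk K h r := rowOk hK (by omega) (by have := q.2.2.1; omega)
    have hq2 : st K h (r + 1) ∣ q.1.2 := by have := q.2.2.2; rw [hr0] at this; exact this
    obtain ⟨i, ⟨i1, i2, i3⟩, iu⟩ := hr.dr q.1.2 hq2
    have hb2 : r ≤ h + K := by have := q.2.2.1; omega
    refine ⟨⟨(r, i), by show -(K : ℤ) ≤ r; omega, hb2, i1⟩, ⟨?_, ?_⟩, ?_⟩
    · exact (hostUp_iff _ _).2 ⟨hr0, i2⟩
    · intro h3
      exact i3 ((hostUp_iff _ _).1 h3).2
    · rintro v ⟨h3, h4⟩
      obtain ⟨h5, h6⟩ := (hostUp_iff _ _).1 h3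
      have h5' : v.1.1 = r := by omega
      refine hv_ext h5' ?_
      rw [h5'] at h6
      refine iu _ ⟨?_, h6, ?_⟩
      · have := v.2.2.2
        rw [h5'] at this
        exact this
      · intro h7
        apply h4
        refine (hostUp_iff _ _).2 ⟨h5, ?_⟩
        have h8 : ((hostE K h) v).1.2 = v.1.2 + st K h r := by rw [E2, h5']
        have h9 : W K h ((hostE K h) v).1.1 ((hostE K h) v).1.2 q.1.2 := by
          rw [h8, E1, h5']; exact h7
        exact h9

end Pool.Agent.Helper16.UB
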